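import Mathlib
import Pool.Agent.EPR.Main

/-!
# MP_4ed1f9_lc: counting algorithms on almost all sparse monotone 2-CNF formulas

Almost every sparse monotone 2-CNF formula resists all algorithms which compute the number of its
models by branching, caching, joins and early summation, if the intermediate results are stored as
sums, with any signs, of tree tensor networks (OBDDs, SDDs, structured d-DNNFs), each with its own
order of the variables, exactly or approximately, or as (monotone) programs.

* Partial counts, hardness for programs: `Pool/Agent/EB/Model.lean`.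
* Programs, trees: `Pool/Agent/WE/Model.lean`.
* Sums of tree tensor networks, runs, random formulas: `Pool/Agent/EPR/Model.lean`.
-/

set_option autoImplicit false

namespace Pool.Agent.EPR.Shelf.EarlyElimination

open Finset Pool.Agent.WD Pool.Agent.EB Pool.Agent.EPR
open scoped NNReal

/-- The partial count `part A Y` is hard, with constant `c`, on the cube of all `x` which agree with
`r` on `F`, both for programs and for sums of tree tensor networks. -/
def HardBoth {n : ℕ} (c : ℝ) (A : Finset (Sym2 (Fin n))) (Y F : Finset (Fin n))
    (r : Fin n → Bool) : Prop := HardOn c A Y F r ∧ SumHardOn c A Y F r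

/-- The monotone 2-CNF with the set of clauses `E` resists.
* Each run with slack of a counting algorithm which ends with all clauses on the full cube (and any
  eliminated variables; if these are all variables, its result is the number of models) has at least
  `2 ^ (c n)` subproblems or a subproblem whose partial count is hard on its cube.
* The partial count of a set `A` of at least `ε |E|` clauses, which contains all clauses with a
  variable in `Y`, is hard on each cube with at most `c n` fixed variables on which it is not zero,
  if `|A| ≤ (1 - ε) |E|` or `|Y| ≤ (1 - ε) n`. -/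
def Resists {n : ℕ} (ε : ℝ) (t : ℕ) (c : ℝ) (E : Finset (Sym2 (Fin n))) : Prop :=
  (∀ (N : ℕ) (A : Fin N → Finset (Sym2 (Fin n))) (Y F : Fin N → Finset (Fin n))
    (r : Fin N → Fin n → Bool), RunS E t ((1 - ε) * E.card) (ε / 2 * E.card) A Y F r →
    (∃ i, A i = E ∧ F i = ∅) →
    (2 : ℝ) ^ (c * n) ≤ N ∨ ∃ i, HardBoth c (A i) (Y i) (F i) (r i)) ∧
  ∀ (A : Finset (Sym2 (Fin n))) (Y F : Finset (Fin n)) (r : Fin n → Bool), Closed E A Y →
    ε * E.card ≤ A.card → ((A.card : ℝ) ≤ (1 - ε) * E.card ∨ (Y.card : ℝ) ≤ (1 - ε) * n) →
    (F.card : ℝ) ≤ c * n → part A Y r ≠ 0 → HardBoth c A Y F r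

/-- For all `0 < ε < 1`, `t ≥ 1` and all sufficiently large `d` there are `c > 0` and `C` such that,
for all `n ≥ d`, the random monotone 2-CNF on `n` variables in which each clause is present with
probability `d / n` fails to resist with probability at most `C / n`. -/
theorem result (ε : ℝ) (hε0 : 0 < ε) (hε1 : ε < 1) (t : ℕ) (ht : 1 ≤ t) :
    ∃ d₀ : ℝ, ∀ d : ℝ, d₀ ≤ d → ∃ c : ℝ, 0 < c ∧ ∃ C : ℝ, ∀ n : ℕ, d ≤ n →
      Prob n (d / n) (fun E => ¬ Resists ε t c E) ≤ C / n := by
  obtain ⟨d₀, h⟩ := Main_epr ε hε0 hε1 t ht
  refine ⟨d₀, fun d hd => ?_⟩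
  obtain ⟨c, hc, C, h⟩ := h d hd
  refine ⟨c, hc, C, fun n hn => ?_⟩
  have he : (fun E : Finset (Sym2 (Fin n)) => ¬ Resists ε t c E) =
      fun E => ¬ Pool.Agent.EPR.Resist ε t c E := by
    funext E
    exact congrArg Not (propext and_comm)
  rw [he]
  exact h n hn

end Pool.Agent.EPR.Shelf.EarlyElimination
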